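import Pool.Agent.H83.V.FV

/-!
Theorem V, row MBV: bad words of letters on the multiples of a prime.
-/

set_option autoImplicit false

open MeasureTheory ProbabilityTheory Filter Topology Finset
open scoped Nat ENNReal

namespace Pool.Agent.H68.V

open Pool.Agent.H83.V
open Pool.Agent.H28.LF (ng Xi Yi shX shY btY flY xiY CompY ExY Wa)

theorem vl_ng (z : Bool) (b : Bool × Bool) : -vl z (ng b) = vl z b := by
  rcases b with ⟨b1, b2⟩
  unfold vl ng
  cases z <;> cases b1 <;> cases b2 <;> simp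

theorem measurable_xiY (p : ℕ) : Measurable (xiY p) :=
  (measurable_pi_apply p).comp ((measurable_snd.comp measurable_snd).comp (measurable_pi_apply 0))

theorem measurableSet_flY (p : ℕ) : MeasurableSet (flY p) := by
  have h : Measurable (fun ω : Yi => (ω 0).2.1 p) :=
    (measurable_pi_apply p).comp ((measurable_fst.comp measurable_snd).comp (measurable_pi_apply 0))
  exact h (measurableSet_singleton true)

/-- the codes depend measurably on the label -/
theorem measurable_Gd {m : ℕ} (I : Finset (Fin m)) (v : Fin m → ℤ) :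
    Measurable (fun b : ℕ → Bool => v ∈ Gd I b) := by
  have h0 : ∀ s : ℕ, Measurable (fun b : ℕ → Bool => b s = true) := by
    intro s
    have h3 : Measurable (fun b : ℕ → Bool => b s) := measurable_pi_apply s
    exact measurableSet_setOfPred.1 (h3 (measurableSet_singleton true))
  have h1 : ∀ v : Fin m → ℤ, Measurable (fun b : ℕ → Bool => v ∈ Gb m b) := fun v =>
    measurable_const.and (h0 (wc v))
  have h2 : Measurable (fun b : ℕ → Bool => SCode I (Gb m b)) := by
    unfold SCode
    refine Measurable.forall fun v => (h1 v).imp (Measurable.forall fun w => (h1 w).imp ?_)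
    exact measurable_const
  exact (h1 v).and h2

/-- the error is measurable -/
theorem measurableSet_eX (z : Bool) {m : ℕ} (I : Finset (Fin m)) :
    MeasurableSet {ξ : Xi | (fun i : Fin m => vl z (ξ ((i : ℤ) + 1)).1) ∈ Gd I (ξ 0).2} := by
  have h1 : {ξ : Xi | (fun i : Fin m => vl z (ξ ((i : ℤ) + 1)).1) ∈ Gd I (ξ 0).2} =
      {ξ : Xi | ∃ u : Fin m → Bool × Bool, (∀ i : Fin m, (ξ ((i : ℤ) + 1)).1 = u i) ∧
        (fun i => vl z (u i)) ∈ Gd I (ξ 0).2} := by
    ext ξ
    constructor
    · intro h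
      exact ⟨fun i => (ξ ((i : ℤ) + 1)).1, fun i => rfl, h⟩
    · rintro ⟨u, hu, h⟩
      have h2 : (fun i : Fin m => vl z (ξ ((i : ℤ) + 1)).1) = fun i => vl z (u i) := by
        funext i
        rw [hu i]
      change (fun i : Fin m => vl z (ξ ((i : ℤ) + 1)).1) ∈ Gd I (ξ 0).2
      rw [h2]
      exact h
  rw [h1, measurableSet_setOfPred]
  refine Measurable.exists fun u => (Measurable.forall fun i => ?_).and ?_
  · have h2 : Measurable (fun ξ : Xi => (ξ ((i : ℤ) + 1)).1) :=
      measurable_fst.comp (measurable_pi_apply _)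
    exact measurableSet_setOfPred.1 (h2 (measurableSet_singleton (u i)))
  · have h2 : Measurable (fun ξ : Xi => (ξ 0).2) := measurable_snd.comp (measurable_pi_apply _)
    exact (measurable_Gd I _).comp h2

theorem eX_eq (z : Bool) {m : ℕ} (I : Finset (Fin m)) : eX z I = Set.indicator
    {ξ : Xi | (fun i : Fin m => vl z (ξ ((i : ℤ) + 1)).1) ∈ Gd I (ξ 0).2}ᶜ (fun _ => (1 : ℝ)) := by
  funext ξ
  by_cases h : (fun i : Fin m => vl z (ξ ((i : ℤ) + 1)).1) ∈ Gd I (ξ 0).2
  · have h0 : ξ ∉ {ξ : Xi | (fun i : Fin m => vl z (ξ ((i : ℤ) + 1)).1) ∈ Gd I (ξ 0).2}ᶜ :=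
      fun h' => h' h
    rw [Set.indicator_of_notMem h0]
    unfold eX
    rw [if_pos h]
  · have h0 : ξ ∈ {ξ : Xi | (fun i : Fin m => vl z (ξ ((i : ℤ) + 1)).1) ∈ Gd I (ξ 0).2}ᶜ := h
    rw [Set.indicator_of_mem h0]
    unfold eX
    rw [if_neg h]

theorem pf_MBV : T_MBV := by
  intro z m I b p ν hc hp hb
  have hprob := hc.prob
  set E : Set Yi := xiY p ⁻¹'
    {ξ : Xi | (fun i : Fin m => vl z (ξ ((i : ℤ) + 1)).1) ∈ Gd I (ξ 0).2}ᶜ with hE
  have hEm : MeasurableSet E := measurable_xiY p (measurableSet_eX z I).compl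
  have hint : ∫ ω in flY p, eX z I (xiY p ω) ∂ν = ν.real (flY p ∩ E) := by
    have h1 : (fun ω => eX z I (xiY p ω)) = Set.indicator E (fun _ => (1 : ℝ)) := by
      funext ω
      rw [eX_eq]
      rfl
    rw [h1]
    refine (integral_indicator_one hEm).trans ?_
    rw [measureReal_restrict_apply hEm, Set.inter_comm]
  rw [hint]
  set Nn : Set Yi := {ω | ¬ (xiY p ω 0).2 = b} with hNn
  have hN0 : ν.real Nn = 0 := by
    rw [measureReal_def]
    have : ν Nn = 0 := hb
    rw [this]
    rfl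
  have hsub : flY p ∩ {ω | Wa shY btY m p ω ∈ PB z I b} ⊆
      ((flY p ∩ E) ∪ ⋃ j ∈ Icc 1 m, (flY p ∩ ExY p j)) ∪ Nn := by
    rintro ω ⟨hf, hω⟩
    by_cases hn : (xiY p ω 0).2 = b
    swap
    · exact Or.inr hn
    left
    by_cases hex : ∃ j ∈ Icc 1 m, ω ∈ ExY p j
    · right
      obtain ⟨j, hj, hj'⟩ := hex
      exact Set.mem_biUnion hj ⟨hf, hj'⟩
    left
    refine ⟨hf, ?_⟩
    intro hg
    apply hω
    have h1 : ∀ i : Fin m, btY (shY^[p * ((i : ℕ) + 1)] ω) =
        ng (xiY p ω (((i : ℕ) + 1 : ℕ) : ℤ)).1 := by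
      intro i
      by_contra hcon
      apply hex
      refine ⟨(i : ℕ) + 1, mem_Icc.2 ⟨by omega, by have := i.2; omega⟩, ?_⟩
      exact hcon
    have h2 : (fun i : Fin m => -vl z (Wa shY btY m p ω i)) =
        fun i : Fin m => vl z (xiY p ω ((i : ℤ) + 1)).1 := by
      funext i
      unfold Wa
      rw [h1 i, vl_ng]
      push_cast
      rfl
    rw [h2, ← hn]
    exact hg
  refine (measureReal_mono hsub).trans ?_
  refine (measureReal_union_le _ _).trans ?_
  rw [hN0, add_zero]
  refine (measureReal_union_le _ _).trans ?_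
  exact add_le_add_right (measureReal_biUnion_finset_le _ _) _

end Pool.Agent.H68.V
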