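import Pool.Agent.H83.V.FV
import Pool.Agent.H84.LF.RLY

/-!
Theorem V, row RLV: the relation on average over the primes of a good scale.
-/

set_option autoImplicit false

open MeasureTheory ProbabilityTheory Filter Topology Finset
open scoped Nat ENNReal

namespace Pool.Agent.H68.V

open Pool.Agent.H83.V
open Pool.Agent.H24.T2 (Pset)
open Pool.Agent.H67.AG (avgP)
open Pool.Agent.H28.LF (Wd ng Xi Yi shX shY btY flY xiY CompY ExY Wa DcO sY GoodC)
open Pool.Agent.H84.LF (avgP_add avgP_mul avgP_const avgP_mono avgP_sum avgP_ind)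

open Classical in
theorem pf_RLV (hW : T_WBV) (hM : T_MBV) : T_RLV := by
  intro z m I w lb γ₀ η F B ν i m' hw hc hF hlb hη hE hmi hg
  have hprob := hc.prob
  obtain ⟨X, hX, hdec⟩ := hg.dec
  have hi : (0 : ℝ) < (i : ℝ) + 1 := by positivity
  have hw0 : (0 : ℝ) < (w : ℝ) := by exact_mod_cast hw
  have hmw : 0 ≤ (m : ℝ) / w := by positivity
  set N : ℕ → ℝ := fun p => ν.real {ω | Wd shY (aY z w) m p ω ∈ BadV z I w lb p} with hN
  have hN1 : ∀ p, N p ≤ 1 := fun p => measureReal_le_one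
  have hN0 : ∀ p, 0 ≤ N p := fun p => measureReal_nonneg
  have key : ∀ p ∈ Pset 2 m', sY F ν p * N p ≤
      (10 * η + (m : ℝ) / w + ∑ j ∈ Icc 1 m, 10 * (p * ν.real (flY p ∩ ExY p j))) +
      (1 / ((i : ℝ) + 1) + if p ∈ X then (1 : ℝ) else 0) := by
    intro p hp
    have hpp : p.Prime := (mem_filter.1 hp).2.1
    have hp0 : (0 : ℝ) ≤ (p : ℝ) := Nat.cast_nonneg p
    have hnn : 0 ≤ 10 * η + (m : ℝ) / w +
        ∑ j ∈ Icc 1 m, 10 * (p * ν.real (flY p ∩ ExY p j)) := by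
      refine add_nonneg (by positivity) (sum_nonneg fun j _ => by positivity)
    have hii : 0 ≤ 1 / ((i : ℝ) + 1) := by positivity
    unfold sY
    split_ifs with h1 h2
    · rw [one_mul]
      have := hN1 p
      linarith
    · rw [one_mul, add_zero]
      have h3 := hW z m I w lb p ν hw hc
      have h4 := hM z m I (lb p) p ν hc hpp (hlb p hpp)
      set G : Set (Fin i → Bool × Bool) := {v | (fun k : Fin m =>
        v ⟨k, lt_of_lt_of_le k.2 hmi⟩) ∈ PB z I (lb p)} with hGd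
      have h5 : {ω : Yi | Wa shY btY i p ω ∈ G} = {ω : Yi | Wa shY btY m p ω ∈
        PB z I (lb p)} := rfl
      have h6 := hdec p hp h2 G
      rw [h5] at h6
      have h8 := hE p hpp h1
      have h7 : 10 * (p * ν.real (flY p ∩ {ω : Yi | Wa shY btY m p ω ∈ PB z I (lb p)})) ≤
          10 * η + ∑ j ∈ Icc 1 m, 10 * (p * ν.real (flY p ∩ ExY p j)) := by
        have h9 : (p : ℝ) * ν.real (flY p ∩ {ω : Yi | Wa shY btY m p ω ∈ PB z I (lb p)}) ≤
            p * (∫ ω in flY p, eX z I (xiY p ω) ∂ν + ∑ j ∈ Icc 1 m, ν.real (flY p ∩ ExY p j)) :=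
          mul_le_mul_of_nonneg_left h4 hp0
        rw [← mul_sum, ← mul_sum]
        rw [mul_add] at h9
        linarith
      have h10 : N p ≤ ν.real {ω : Yi | Wa shY btY m p ω ∈ PB z I (lb p)} + (m : ℝ) / w := h3
      linarith
    · rw [zero_mul]
      linarith
    · rw [zero_mul, add_zero]
      linarith
  refine (avgP_mono m' key).trans ?_
  rw [avgP_add, avgP_add, avgP_add, avgP_add, avgP_sum, avgP_const m' hg.ne,
    avgP_const m' hg.ne, avgP_const m' hg.ne]
  have h2 := avgP_ind m' X _ hX hg.ne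
  have h3 : ∑ j ∈ Icc 1 m, avgP 2 m' (fun p => 10 * (p * ν.real (flY p ∩ ExY p j))) ≤
      10 / ((i : ℝ) + 1) := by
    have h4 : ∀ j ∈ Icc 1 m, avgP 2 m' (fun p => 10 * (p * ν.real (flY p ∩ ExY p j))) ≤
        10 * (1 / ((i : ℝ) + 1) ^ 2) := by
      intro j hj
      rw [avgP_mul]
      have hj' := mem_Icc.1 hj
      exact mul_le_mul_of_nonneg_left (hg.exc j (by omega) (by omega)) (by norm_num)
    refine (sum_le_sum h4).trans ?_
    rw [sum_const, nsmul_eq_mul, Nat.card_Icc]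
    have h5 : ((m + 1 - 1 : ℕ) : ℝ) ≤ (i : ℝ) + 1 := by
      have : m + 1 - 1 ≤ i + 1 := by omega
      exact_mod_cast this
    calc ((m + 1 - 1 : ℕ) : ℝ) * (10 * (1 / ((i : ℝ) + 1) ^ 2))
        ≤ ((i : ℝ) + 1) * (10 * (1 / ((i : ℝ) + 1) ^ 2)) :=
          mul_le_mul_of_nonneg_right h5 (by positivity)
      _ = 10 / ((i : ℝ) + 1) := by field_simp
  have h8 : (12 : ℝ) / ((i : ℝ) + 1) = 10 / ((i : ℝ) + 1) + (1 / ((i : ℝ) + 1) +
      1 / ((i : ℝ) + 1)) := by ring
  rw [h8]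
  linarith

end Pool.Agent.H68.V
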